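import Pool.Agent.helper23.CO.SpecC

set_option autoImplicit false

/-! # Row co:GDP (MP_7c3fb3_pr) -/

open Finset Filter Topology

namespace CO

open CU

theorem GDP_sg_mono {d n : ℕ} (x : Site d n) : Monotone (fun σ : Conf d n => sg (σ x)) := by
  intro σ τ h
  have hx : σ x ≤ τ x := h x
  show sg (σ x) ≤ sg (τ x)
  unfold sg
  rcases hσ : σ x with _ | _ <;> rcases hτ : τ x with _ | _ <;> rw [hσ, hτ] at hx
  all_goals first | exact absurd hx (by decide) | norm_num

theorem GDP_le_plus {d n : ℕ} (η : Conf d n) : η ≤ (plus : Conf d n) := by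
  intro x
  exact le_top

theorem GDP (hOVT : OVT_stmt) (hERM : ERM_stmt) (hERA : ERA_stmt) : GDP_stmt := by
  intro d n _ hn β m κ S P Wp w0 f η₁ η₂ hβ hκ hP hw0 hW hpl h1 h2
  have hk : ∀ (η : Conf d n) (p : ℕ), 0 ≤ ∑ x ∈ Wp p,
      (ER β S (fun σ => sg (σ x)) plus - ER β S (fun σ => sg (σ x)) η) := by
    intro η p
    refine sum_nonneg fun x _ => sub_nonneg.2 ?_
    exact hERM d n β S _ hβ (GDP_sg_mono x) (GDP_le_plus η)
  have hsum : ∀ η : Conf d n,
      (m - 3 * κ) * (P.card * w0) ≤ (∑ p ∈ P, ∑ x ∈ Wp p, ER β S (fun σ => sg (σ x)) η) →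
      ∑ p ∈ P, ∑ x ∈ Wp p,
        (ER β S (fun σ => sg (σ x)) plus - ER β S (fun σ => sg (σ x)) η) ≤
        4 * κ * (P.card * w0) := by
    intro η hη
    have e1 : ∑ p ∈ P, ∑ x ∈ Wp p,
        (ER β S (fun σ => sg (σ x)) plus - ER β S (fun σ => sg (σ x)) η) =
        (∑ p ∈ P, ∑ x ∈ Wp p, ER β S (fun σ => sg (σ x)) plus) -
        ∑ p ∈ P, ∑ x ∈ Wp p, ER β S (fun σ => sg (σ x)) η := by
      rw [← sum_sub_distrib]
      exact sum_congr rfl fun p _ => by rw [sum_sub_distrib]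
    have e2 : (∑ p ∈ P, ∑ x ∈ Wp p, ER β S (fun σ => sg (σ x)) plus) ≤
        (m + κ) * (P.card * w0) := by
      calc (∑ p ∈ P, ∑ x ∈ Wp p, ER β S (fun σ => sg (σ x)) plus)
          ≤ ∑ p ∈ P, ∑ _x ∈ Wp p, (m + κ) :=
            sum_le_sum fun p hp => sum_le_sum fun x hx => hpl p hp x hx
        _ = ∑ p ∈ P, (w0 : ℝ) * (m + κ) := by
            refine sum_congr rfl fun p hp => ?_
            rw [sum_const, nsmul_eq_mul, (hW p hp).2]
        _ = (m + κ) * (P.card * w0) := by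
            rw [sum_const, nsmul_eq_mul]; ring
    rw [e1]
    linarith
  have hex : ∃ p ∈ P,
      (∑ x ∈ Wp p, (ER β S (fun σ => sg (σ x)) plus - ER β S (fun σ => sg (σ x)) η₁)) ≤
        12 * κ * w0 ∧
      (∑ x ∈ Wp p, (ER β S (fun σ => sg (σ x)) plus - ER β S (fun σ => sg (σ x)) η₂)) ≤
        12 * κ * w0 := by
    by_contra hcon
    push Not at hcon
    have h3 : ∀ p ∈ P, 12 * κ * w0 < (∑ x ∈ Wp p, (ER β S (fun σ => sg (σ x)) plus -
        ER β S (fun σ => sg (σ x)) η₁)) + ∑ x ∈ Wp p, (ER β S (fun σ => sg (σ x)) plus -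
        ER β S (fun σ => sg (σ x)) η₂) := by
      intro p hp
      by_cases h : (∑ x ∈ Wp p, (ER β S (fun σ => sg (σ x)) plus -
          ER β S (fun σ => sg (σ x)) η₁)) ≤ 12 * κ * w0
      · have := hcon p hp h
        have := hk η₁ p
        linarith
      · have := hk η₂ p
        push Not at h
        linarith
    have h4 := sum_lt_sum_of_nonempty hP h3
    rw [sum_const, nsmul_eq_mul, sum_add_distrib] at h4
    have h5 := hsum η₁ h1
    have h6 := hsum η₂ h2
    have h7 : (0 : ℝ) < P.card * w0 := by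
      have : 0 < P.card := card_pos.2 hP
      have h8 : (0 : ℝ) < P.card := by exact_mod_cast this
      have h9 : (0 : ℝ) < w0 := by exact_mod_cast hw0
      positivity
    have h10 : (P.card : ℝ) * (12 * κ * w0) = 12 * κ * (P.card * w0) := by ring
    rw [h10] at h4
    nlinarith [mul_pos hκ h7]
  obtain ⟨p, hp, hp1, hp2⟩ := hex
  have hw0' : (0 : ℝ) ≤ w0 := Nat.cast_nonneg _
  have hD : (0 : ℝ) ≤ 12 * κ * w0 := by positivity
  obtain ⟨hA1, _, hA3, hA4, _, _⟩ := hERA d n β S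
  obtain ⟨_, _, _, hB4, _, _⟩ := hERA d n β (univ \ Wp p)
  have hv : ∀ σ τ : Conf d n, (∀ x ∈ Wp p, σ x = τ x) →
      ER β (univ \ Wp p) f σ = ER β (univ \ Wp p) f τ := by
    intro σ τ hστ
    refine hB4 f σ τ fun x hx => hστ x ?_
    by_contra hx'
    exact hx (mem_sdiff.2 ⟨mem_univ _, hx'⟩)
  have hO := hOVT d n hn β (12 * κ * w0) S (Wp p) η₁ η₂ (ER β (univ \ Wp p) f)
    (ER β S f η₁) (ER β S f η₂) hβ hD (hW p hp).1 hp1 hp2 hv
  have hcon : ∀ η : Conf d n, ER β S (fun σ => |ER β S f η - ER β (univ \ Wp p) f σ|) η ≤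
      ∑ p ∈ P, ER β S (fun σ => |ER β S f σ - ER β (univ \ Wp p) f σ|) η := by
    intro η
    have h3 : ER β S (fun σ => |ER β S f η - ER β (univ \ Wp p) f σ|) η ≤
        ER β S (fun σ => |ER β S f σ - ER β (univ \ Wp p) f σ|) η := by
      refine hA1 _ _ η fun σ hσ => ?_
      have h4 : ER β S f η = ER β S f σ := by
        refine hA4 f η σ fun x hx => ?_
        unfold fo at hσ
        rw [mem_filter] at hσ
        exact (hσ.2 x hx).symm
      rw [h4]
    refine h3.trans ?_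
    refine single_le_sum (f := fun p => ER β S (fun σ =>
      |ER β S f σ - ER β (univ \ Wp p) f σ|) η) (fun q _ => ?_) hp
    have h5 := hA1 (fun _ => (0 : ℝ)) (fun σ => |ER β S f σ - ER β (univ \ Wp q) f σ|) η
      (fun σ _ => abs_nonneg _)
    rw [hA3 0 η] at h5
    exact h5
  refine hO.trans ?_
  refine mul_le_mul_of_nonneg_left (add_le_add (hcon η₁) (hcon η₂)) (by positivity)

end CO
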